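import Pool.Agent.H7.LP.Targets3

/-!
# lpq_modules BCQ: the codes of points form a Borel set
-/

set_option autoImplicit false

open Set Filter Topology

namespace Pool.Agent.H55.LPQ

open Pool.Agent.H93.CP Pool.Agent.H7.LP Pool.Agent.H7.LQ

section Helpers

variable {Ω : Type} [MeasurableSpace Ω]

theorem bcq_imp {P Q : Ω → Prop} (hP : MeasurableSet {p | P p}) (hQ : MeasurableSet {p | Q p}) :
    MeasurableSet {p | P p → Q p} := by
  have : {p | P p → Q p} = {p | P p}ᶜ ∪ {p | Q p} := by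
    ext p
    simp only [mem_union, mem_compl_iff, Set.mem_ofPred_eq]
    tauto
  rw [this]
  exact hP.compl.union hQ

theorem bcq_all {P : ℕ → Ω → Prop} (hP : ∀ i, MeasurableSet {p | P i p}) :
    MeasurableSet {p | ∀ i, P i p} := by
  have : {p | ∀ i, P i p} = ⋂ i, {p | P i p} := by
    ext p
    simp
  rw [this]
  exact MeasurableSet.iInter hP

theorem bcq_ex {P : ℕ → Ω → Prop} (hP : ∀ i, MeasurableSet {p | P i p}) :
    MeasurableSet {p | ∃ i, P i p} := by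
  have : {p | ∃ i, P i p} = ⋃ i, {p | P i p} := by
    ext p
    simp
  rw [this]
  exact MeasurableSet.iUnion hP

theorem bcq_sub {P : ℕ → ℕ → Ω → Prop} (hP : ∀ k m, MeasurableSet {p | P k m p}) {f g : Ω → ℕ}
    (hf : Measurable f) (hg : Measurable g) : MeasurableSet {p | P (f p) (g p) p} := by
  have : {p | P (f p) (g p) p} = {p | ∃ k, ∃ m, (f p = k ∧ g p = m) ∧ P k m p} := by
    ext p
    constructor
    · intro h
      exact ⟨_, _, ⟨rfl, rfl⟩, h⟩
    · rintro ⟨k, m, ⟨rfl, rfl⟩, h⟩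
      exact h
  rw [this]
  refine bcq_ex fun k => bcq_ex fun m => ?_
  have h1 : MeasurableSet {p | f p = k} := hf (measurableSet_singleton k)
  have h2 : MeasurableSet {p | g p = m} := hg (measurableSet_singleton m)
  exact (h1.inter h2).inter (hP k m)

end Helpers

theorem bcq_iff (h1 : T_LBT) (h2 : T_KKA) (h5 : T_NCO) (G X : Type) [Group G] [TopologicalSpace G]
    [IsTopologicalGroup G] [PolishSpace G] [MeasurableSpace G] [MeasurableSpace X] (B : Bs G)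
    (L : LPD G) (M : Subgroup G) [MulAction M X] (Y : Hit M X) (S : Canon L Y) (x : X)
    (e : ℕ → ℕ × ℕ × G) :
    IsCd B S x e ↔ (∀ i, Nd B S x (e i)) ∧ ∀ k m n : ℕ,
      Tight (L.R k) (KX B L Y k m x (S.nu k n x)) → ∀ N : ℕ, ∃ i, (N ≤ i ∧ (e i).1 = k ∧
        (e i).2.1 = m) ∧ S.nu k n x * ((e i).2.2)⁻¹ ∈ KX B L Y k m x (e i).2.2 := by
  constructor
  · intro h
    refine ⟨h.node, fun k m n ht N => ?_⟩
    obtain ⟨i, a, b, c, d⟩ := h.all k m (S.nu k n x) ⟨S.can k n x, ht⟩ N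
    exact ⟨i, ⟨a, b, c⟩, d⟩
  · rintro ⟨hn, ha⟩
    refine ⟨hn, fun k m g hg N => ?_⟩
    obtain ⟨hcl, hlab, hmul, -⟩ := h1 G X L M Y k x g
    obtain ⟨-, -, hop, -⟩ := h2 G B (L.R k) (L.H k) (lb L Y k x g) (L.piece k) hcl hlab
    obtain ⟨U, hU, hUK⟩ := hop m
    have hO : {a : G | g * a⁻¹ ∈ (L.H k : Set G) ∩ U} ∈ 𝓝 g := by
      have hc : Tendsto (fun a : G => g * a⁻¹) (𝓝 g) (𝓝 (g * g⁻¹)) :=
        (continuous_const.mul continuous_inv).tendsto g
      rw [mul_inv_cancel] at hc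
      exact hc (Filter.inter_mem ((L.piece k).op.mem_nhds (L.H k).one_mem) hU)
    obtain ⟨n, hn1, hn2⟩ := S.all k x g hg.1 _ hO
    have hKX : KX B L Y k m x (S.nu k n x) = KX B L Y k m x g := by
      unfold KX
      rw [hn2]
    have hst : g * (S.nu k n x)⁻¹ ∈ KX B L Y k m x (S.nu k n x) := by
      rw [hKX]
      refine hUK _ ⟨hn1.1, ?_⟩ hn1.2
      obtain ⟨-, -, hmul', -⟩ := h1 G X L M Y k x (S.nu k n x)
      have h3 := hmul' (g * (S.nu k n x)⁻¹) hn1.1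
      rw [inv_mul_cancel_right, hn2] at h3
      exact h3.symm
    obtain ⟨i, ⟨a, b, c⟩, d⟩ := ha k m n (by rw [hKX]; exact hg.2) N
    refine ⟨i, a, b, c, ?_⟩
    have h4 := (h5 G X B L M Y S k m x (e i).2.2 _ d).2.1
    rw [inv_mul_cancel_right] at h4
    rw [h4] at hst
    have h6 := (KX B L Y k m x (e i).2.2).mul_mem hst d
    rwa [show g * (S.nu k n x)⁻¹ * (S.nu k n x * ((e i).2.2)⁻¹) = g * ((e i).2.2)⁻¹ by group] at h6

theorem pf_BCQ (h1 : T_LBT) (h2 : T_KKA) (h3 : T_BTG) (h4 : T_BKX) (h5 : T_NCO) : T_BCQ := by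
  intro G X _ _ _ _ _ _ _ _ B L M _ Y S
  have hset : {p : X × (ℕ → ℕ × ℕ × G) | IsCd B S p.1 p.2} =
      {p | ∀ i, Nd B S p.1 (p.2 i)} ∩ {p | ∀ k m n : ℕ,
        Tight (L.R k) (KX B L Y k m p.1 (S.nu k n p.1)) → ∀ N : ℕ, ∃ i, (N ≤ i ∧ (p.2 i).1 = k ∧
        (p.2 i).2.1 = m) ∧ S.nu k n p.1 * ((p.2 i).2.2)⁻¹ ∈ KX B L Y k m p.1 (p.2 i).2.2} := by
    ext p
    exact bcq_iff h1 h2 h5 G X B L M Y S p.1 p.2
  rw [hset]
  have me : ∀ i : ℕ, Measurable fun p : X × (ℕ → ℕ × ℕ × G) => p.2 i := fun i =>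
    (measurable_pi_apply i).comp measurable_snd
  have me1 : ∀ i : ℕ, Measurable fun p : X × (ℕ → ℕ × ℕ × G) => (p.2 i).1 := fun i => (me i).fst
  have me2 : ∀ i : ℕ, Measurable fun p : X × (ℕ → ℕ × ℕ × G) => (p.2 i).2.1 := fun i =>
    (me i).snd.fst
  have me3 : ∀ i : ℕ, Measurable fun p : X × (ℕ → ℕ × ℕ × G) => (p.2 i).2.2 := fun i =>
    (me i).snd.snd
  refine MeasurableSet.inter (bcq_all fun i => ?_)
    (bcq_all fun k => bcq_all fun m => bcq_all fun n => bcq_imp ?_ (bcq_all fun N => bcq_ex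
      fun i => MeasurableSet.inter (MeasurableSet.inter (MeasurableSet.const _)
        (MeasurableSet.inter ?_ ?_)) ?_))
  · refine bcq_sub (P := fun k m (p : X × (ℕ → ℕ × ℕ × G)) =>
      S.Can k (lb L Y k p.1 (p.2 i).2.2) ∧ Tight (L.R k) (KX B L Y k m p.1 (p.2 i).2.2)) ?_
      (me1 i) (me2 i)
    intro k m
    have hm : Measurable fun p : X × (ℕ → ℕ × ℕ × G) => (p.1, (p.2 i).2.2) :=
      measurable_fst.prodMk (me3 i)
    exact (hm (S.bor k)).inter (hm (h3 G X B L M Y k m))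
  · have hm : Measurable fun p : X × (ℕ → ℕ × ℕ × G) => (p.1, S.nu k n p.1) :=
      measurable_fst.prodMk ((S.meas k n).comp measurable_fst)
    exact hm (h3 G X B L M Y k m)
  · exact me1 i (measurableSet_singleton k)
  · exact me2 i (measurableSet_singleton m)
  · have hm : Measurable fun p : X × (ℕ → ℕ × ℕ × G) =>
        ((p.1, (p.2 i).2.2), S.nu k n p.1 * ((p.2 i).2.2)⁻¹) :=
      (measurable_fst.prodMk (me3 i)).prodMk
        (((S.meas k n).comp measurable_fst).mul (me3 i).inv)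
    exact hm (h4 G X B L M Y k m)

end Pool.Agent.H55.LPQ
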