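import Pool.Agent.H7.LP.Targets3

/-!
# lpq_modules CDM: codes of the points in a Borel way
-/

set_option autoImplicit false

open Set Filter Topology

namespace Pool.Agent.H55.LPQ

open Pool.Agent.H93.CP Pool.Agent.H7.LP Pool.Agent.H7.LQ

theorem cdm_near (h1 : T_LBT) (h2 : T_KKA) (G X : Type) [Group G] [TopologicalSpace G]
    [IsTopologicalGroup G] [PolishSpace G] [MeasurableSpace G] [MeasurableSpace X] (B : Bs G)
    (L : LPD G) (M : Subgroup G) [MulAction M X] (Y : Hit M X) (S : Canon L Y) (x : X)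
    (k m : ℕ) (g : G) (hg : Nd B S x (k, m, g)) :
    ∃ n, KX B L Y k m x (S.nu k n x) = KX B L Y k m x g ∧
      g * (S.nu k n x)⁻¹ ∈ KX B L Y k m x (S.nu k n x) := by
  obtain ⟨hcl, hlab, hmul, -⟩ := h1 G X L M Y k x g
  obtain ⟨-, -, hop, -⟩ := h2 G B (L.R k) (L.H k) (lb L Y k x g) (L.piece k) hcl hlab
  obtain ⟨U, hU, hUK⟩ := hop m
  have hO : {a : G | g * a⁻¹ ∈ (L.H k : Set G) ∩ U} ∈ 𝓝 g := by
    have hc : Tendsto (fun a : G => g * a⁻¹) (𝓝 g) (𝓝 (g * g⁻¹)) :=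
      (continuous_const.mul continuous_inv).tendsto g
    rw [mul_inv_cancel] at hc
    exact hc (Filter.inter_mem ((L.piece k).op.mem_nhds (L.H k).one_mem) hU)
  obtain ⟨n, hn1, hn2⟩ := S.all k x g hg.1 _ hO
  have hKX : KX B L Y k m x (S.nu k n x) = KX B L Y k m x g := by
    unfold KX
    rw [hn2]
  refine ⟨n, hKX, ?_⟩
  rw [hKX]
  refine hUK _ ⟨hn1.1, ?_⟩ hn1.2
  obtain ⟨-, -, hmul', -⟩ := h1 G X L M Y k x (S.nu k n x)
  have h3 := hmul' (g * (S.nu k n x)⁻¹) hn1.1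
  rw [inv_mul_cancel_right, hn2] at h3
  exact h3.symm

theorem pf_CDM (h1 : T_LBT) (h2 : T_KKA) (h3 : T_BTG) (_h4 : T_NCO) : T_CDM := by
  classical
  intro G X _ _ _ _ _ _ _ _ B L M _ Y S
  have hT : ∀ k m n : ℕ, MeasurableSet {x : X |
      Tight (L.R k) (KX B L Y k m x (S.nu k n x))} := by
    intro k m n
    have hm : Measurable fun x : X => (x, S.nu k n x) := measurable_id.prodMk (S.meas k n)
    exact hm (h3 G X B L M Y k m)
  have hex : ∀ x : X, ∃ m, Tight (L.R 0) (KX B L Y 0 m x (S.nu 0 0 x)) := by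
    intro x
    obtain ⟨hcl, hlab, -, -⟩ := h1 G X L M Y 0 x (S.nu 0 0 x)
    obtain ⟨ha, hb, -, -, -, hf⟩ := h2 G B (L.R 0) (L.H 0) (lb L Y 0 x (S.nu 0 0 x)) (L.piece 0)
      hcl hlab
    obtain ⟨m, -, hm⟩ := hf (Stb (L.H 0) (lb L Y 0 x (S.nu 0 0 x))) ((ha 0).trans (hb 0)) le_rfl
      ⟨univ, Filter.univ_mem, fun g hg _ => hg⟩
    exact ⟨m, hm⟩
  set a : ℕ → ℕ := fun i => (Nat.unpair (Nat.unpair i).1).1 with ha
  set b : ℕ → ℕ := fun i => (Nat.unpair (Nat.unpair i).1).2 with hb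
  set c : ℕ → ℕ := fun i => (Nat.unpair (Nat.unpair i).2).1 with hc
  set E : X → ℕ → ℕ × ℕ × G := fun x i =>
    if Tight (L.R (a i)) (KX B L Y (a i) (b i) x (S.nu (a i) (c i) x)) then
      (a i, b i, S.nu (a i) (c i) x) else (0, Nat.find (hex x), S.nu 0 0 x) with hE
  refine ⟨E, fun i => ?_, fun x => ⟨fun i => ?_, fun k m g hg N => ?_⟩⟩
  · refine Measurable.ite (hT _ _ _) ?_ ?_
    · exact measurable_const.prodMk (measurable_const.prodMk (S.meas _ _))
    · refine measurable_const.prodMk (Measurable.prodMk ?_ (S.meas _ _))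
      exact measurable_find hex fun m => hT 0 m 0
  · by_cases h : Tight (L.R (a i)) (KX B L Y (a i) (b i) x (S.nu (a i) (c i) x))
    · have e : E x i = (a i, b i, S.nu (a i) (c i) x) := by
        rw [hE]
        exact if_pos h
      rw [e]
      exact ⟨S.can _ _ _, h⟩
    · have e : E x i = (0, Nat.find (hex x), S.nu 0 0 x) := by
        rw [hE]
        exact if_neg h
      rw [e]
      exact ⟨S.can _ _ _, Nat.find_spec (hex x)⟩
  · obtain ⟨n, hn1, hn2⟩ := cdm_near h1 h2 G X B L M Y S x k m g hg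
    have ia : a (Nat.pair (Nat.pair k m) (Nat.pair n N)) = k := by
      simp [ha]
    have ib : b (Nat.pair (Nat.pair k m) (Nat.pair n N)) = m := by
      simp [hb]
    have ic : c (Nat.pair (Nat.pair k m) (Nat.pair n N)) = n := by
      simp [hc]
    have e : E x (Nat.pair (Nat.pair k m) (Nat.pair n N)) = (k, m, S.nu k n x) := by
      rw [hE]
      simp only [ia, ib, ic]
      refine if_pos ?_
      rw [hn1]
      exact hg.2
    refine ⟨_, (Nat.right_le_pair n N).trans (Nat.right_le_pair (Nat.pair k m) _), ?_⟩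
    rw [e]
    exact ⟨rfl, rfl, hn2⟩

end Pool.Agent.H55.LPQ
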