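import Pool.Agent.H7.LP.Targets

/-!
# Row CVN: convergence for nodes
-/

set_option autoImplicit false

open Set Filter Topology

namespace Pool.Agent.H55.LP

open Pool.Agent.H7.LP Pool.Agent.H93.CP

theorem pf_CVN (h1 : T_LAB) (h2 : T_OCL) (h3 : T_CJP) (h4 : T_CV) : T_CVN := by
  intro G X _ _ _ _ _ L M _ Y S q g g' hA hK hU hU'
  have hclK : ∀ s, IsClosed (S.K (q s) : Set G) := by
    intro s
    have hHc : IsClosed (L.H (S.k (q s)) : Set G) :=
      Subgroup.isClosed_of_isOpen _ (L.piece _).op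
    have hD : IsClosed (Stb (L.H (S.k (q s))) (S.y (q s)) : Set G) :=
      (h1 G).2.2.2.2.1 _ _ hHc (S.ycl (q s))
    exact h2 G _ _ hD (S.le (q s)) (S.opn (q s))
  have key : ∀ (s : ℕ) (u : G), (g (s + 1) * (g s)⁻¹)⁻¹ * (g (s + 1) * u * (g (s + 1))⁻¹) *
      (g (s + 1) * (g s)⁻¹) = g s * u * (g s)⁻¹ := by
    intro s u
    group
  obtain ⟨a, ha⟩ := h4 G (fun s => cj (g s) (L.H (S.k (q s)))) (fun s => cj (g s) (L.R (S.k (q s))))
    (fun s => cj (g s) (S.K (q s))) (fun s => (g' s)⁻¹ * g s)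
    (fun s => (h3 G (g s) _ (S.K (q s)) _).1 (L.piece _))
    (fun s u hu => by
      rw [mem_cj] at hu ⊢
      rw [← key s u]
      exact (hA s).mH _ hu)
    (fun s u hu => by
      rw [mem_cj] at hu ⊢
      rw [← key s u]
      exact (hA s).mR _ hu)
    (fun s u hu => by
      rw [mem_cj] at hu ⊢
      rw [← key s u]
      exact (hA s).mK _ hu)
    (fun s => (h3 G (g s) (L.R (S.k (q s))) _ (L.H (S.k (q s)))).2.2 (hclK s))
    (fun s u hu => by
      rw [mem_cj] at hu ⊢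
      exact S.ge _ hu)
    (fun s u hu => by
      rw [mem_cj] at hu ⊢
      exact (S.le _ hu).1)
    (fun s => (h3 G (g s) _ _ (L.H (S.k (q s)))).2.1 (S.tight _))
    (fun s => by
      rw [mem_cj]
      have h5 := (S.K (q s)).inv_mem (hK s)
      have h6 : ((g (s + 1) * (g s)⁻¹)⁻¹ * (g' (s + 1) * (g' s)⁻¹))⁻¹ =
          g s * (((g' s)⁻¹ * g s)⁻¹ * ((g' (s + 1))⁻¹ * g (s + 1))) * (g s)⁻¹ := by
        group
      rw [h6] at h5
      exact h5)
    (fun U hUn => by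
      obtain ⟨s, hs⟩ := hU U hUn
      refine ⟨s, fun r hr => ?_⟩
      rw [mem_cj] at hr
      have h5 := hs _ hr
      have h6 : (g s)⁻¹ * (g s * r * (g s)⁻¹) * g s = r := by group
      rwa [h6] at h5)
    (fun U hUn => by
      obtain ⟨s, hs⟩ := hU' U hUn
      refine ⟨s, fun r hr => ?_⟩
      rw [mem_cj] at hr
      have h5 := hs _ hr
      have h6 : (g' s)⁻¹ * (g s * r * (g s)⁻¹) * g' s =
          (g' s)⁻¹ * g s * r * ((g' s)⁻¹ * g s)⁻¹ := by group
      rwa [h6] at h5)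
  refine ⟨a, fun s => ?_⟩
  have h5 := ha s
  rw [mem_cj] at h5
  have h6 : g s * (((g' s)⁻¹ * g s)⁻¹ * a) * (g s)⁻¹ = g' s * a * (g s)⁻¹ := by group
  rwa [h6] at h5

end Pool.Agent.H55.LP
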