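import Pool.Agent.H7.LP.Targets3

/-!
Board lpq_modules, row SAM: two codes with the same structure have the same labels, groups and
cosets of quotients (helper55).
-/

set_option autoImplicit false

open Set Filter Topology

namespace Pool.Agent.H55.LPQ

open Pool.Agent.H93.CP Pool.Agent.H7.LP Pool.Agent.H7.LQ

theorem pf_SAM (h1 : T_CSE) (h2 : T_LBT) (h3 : T_KKA) : T_SAM := by
  intro G X _ _ _ _ _ _ B L M _ Y x x' e e' w hw hw'
  have hA : ∀ i, (e' i).1 = (e i).1 ∧ (e' i).2.1 = (e i).2.1 ∧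
      lb L Y (e i).1 x (e i).2.2 = lb L Y (e i).1 x' (e' i).2.2 ∧
      KX B L Y (e i).1 (e i).2.1 x' (e' i).2.2 = KX B L Y (e i).1 (e i).2.1 x (e i).2.2 := by
    intro i
    have e1 : (e' i).1 = (e i).1 := (hw'.k i).symm.trans (hw.k i)
    have e2 : (e' i).2.1 = (e i).2.1 := (hw'.m i).symm.trans (hw.m i)
    have hy := hw.y i
    have hy' := hw'.y i
    rw [e1] at hy'
    have e3 : lb L Y (e i).1 x (e i).2.2 = lb L Y (e i).1 x' (e' i).2.2 := by
      funext n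
      apply h1 G B _ _ ((h2 G X L M Y (e i).1 x (e i).2.2).1 n)
        ((h2 G X L M Y (e i).1 x' (e' i).2.2).1 n)
      intro p
      exact (hy n p).symm.trans (hy' n p)
    refine ⟨e1, e2, e3, ?_⟩
    unfold KX
    rw [e3]
  refine ⟨hA, ?_⟩
  intro i j hij
  obtain ⟨a1, a2, -, -⟩ := hA i
  obtain ⟨b1, b2, -, b4⟩ := hA j
  have hL : Le B L Y x (e i) (e j) := (hw.le i j).1 hij
  have hL' : Le B L Y x' (e' i) (e' j) := (hw'.le i j).1 hij
  set K : Subgroup G := KX B L Y (e j).1 (e j).2.1 x (e j).2.2 with hK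
  have hKc : IsClosed (K : Set G) := by
    obtain ⟨c1, c2, -, -⟩ := h2 G X L M Y (e j).1 x (e j).2.2
    exact (h3 G B (L.R (e j).1) (L.H (e j).1) _ (L.piece _) c1 c2).2.2.2.1 _
  have hcl : ∀ q : G, IsClosed {a : G | q⁻¹ * a ∈ K} := by
    intro q
    exact hKc.preimage (continuous_const.mul continuous_id)
  have hcode : ∀ (q : G) (p : ℕ), ({a : G | q⁻¹ * a ∈ K} ∩ B.U p).Nonempty ↔
      ∃ u ∈ K, q * u ∈ B.U p := by
    intro q p
    constructor
    · rintro ⟨a, ha1, ha2⟩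
      exact ⟨q⁻¹ * a, ha1, by rwa [mul_inv_cancel_left]⟩
    · rintro ⟨u, hu1, hu2⟩
      exact ⟨q * u, by rw [mem_setOf_eq, inv_mul_cancel_left]; exact hu1, hu2⟩
  have heq := h1 G B _ _ (hcl ((e i).2.2 * ((e j).2.2)⁻¹)) (hcl ((e' i).2.2 * ((e' j).2.2)⁻¹)) (by
    intro p
    rw [hcode, hcode]
    have c1 := hw.q i j p
    have c2 := hw'.q i j p
    rw [b1, b2, b4] at c2
    constructor
    · intro h
      exact (c2.1 (c1.2 ⟨hL, h⟩)).2
    · intro h
      exact (c1.1 (c2.2 ⟨hL', h⟩)).2)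
  have hmem : (e' i).2.2 * ((e' j).2.2)⁻¹ ∈
      {a : G | ((e' i).2.2 * ((e' j).2.2)⁻¹)⁻¹ * a ∈ K} := by
    rw [mem_setOf_eq, inv_mul_cancel]
    exact K.one_mem
  rw [← heq] at hmem
  exact hmem

end Pool.Agent.H55.LPQ
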