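import Pool.Agent.H7.LP.Targets3

/-!
# lpq_modules SEQ: steps exist for structures of codes
-/

set_option autoImplicit false

open Set Filter Topology

namespace Pool.Agent.H55.LPQ

open Pool.Agent.H93.CP Pool.Agent.H7.LP Pool.Agent.H7.LQ

theorem pf_SEQ (h1 : T_LBT) (h2 : T_DIQ) (h3 : T_KKA) : T_SEQ := by
  intro G X _ _ _ _ _ _ B L M _ Y S sel hsel x e w hc hs s i b
  obtain ⟨m0, -, hm0⟩ := L.conj (b⁻¹ * (e i).2.2) s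
  obtain ⟨l, hl1, hl2, hl3, hl4⟩ := h2 G X B L M Y S x e w hc hs i s m0
  set gl : G := (e l).2.2 with hgl
  set gi : G := (e i).2.2 with hgi
  set K : Subgroup G := KX B L Y (e i).1 (e i).2.1 x gi with hK
  have hle : Le B L Y x (e l) (e i) := (hs.le l i).1 hl3
  obtain ⟨hcl, hlab, -, -⟩ := h1 G X L M Y (e i).1 x gi
  obtain ⟨-, -, -, hKcl, -⟩ := h3 G B (L.R (e i).1) (L.H (e i).1) (lb L Y (e i).1 x gi)
    (L.piece _) hcl hlab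
  have hFc : IsClosed {a : G | (gl * gi⁻¹)⁻¹ * a ∈ (K : Set G)} :=
    (hKcl (e i).2.1).preimage (continuous_const_mul _)
  have hF0 : gl * gi⁻¹ ∈ {a : G | (gl * gi⁻¹)⁻¹ * a ∈ (K : Set G)} := by
    show (gl * gi⁻¹)⁻¹ * (gl * gi⁻¹) ∈ (K : Set G)
    rw [inv_mul_cancel]
    exact K.one_mem
  have hco : ∀ p, (w.2 l i).2 p = true ↔
      ({a : G | (gl * gi⁻¹)⁻¹ * a ∈ (K : Set G)} ∩ B.U p).Nonempty := by
    intro p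
    rw [hs.q l i p]
    constructor
    · rintro ⟨-, u, hu, hup⟩
      refine ⟨gl * gi⁻¹ * u, ?_, hup⟩
      show (gl * gi⁻¹)⁻¹ * (gl * gi⁻¹ * u) ∈ (K : Set G)
      rw [inv_mul_cancel_left]
      exact hu
    · rintro ⟨a, ha, hap⟩
      refine ⟨hle, (gl * gi⁻¹)⁻¹ * a, ha, ?_⟩
      rw [mul_inv_cancel_left]
      exact hap
  have hO : {y : G | b⁻¹ * ((gl * gi⁻¹)⁻¹ * y) * b ∈ (L.H s : Set G)} ∈ 𝓝 (gl * gi⁻¹) := by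
    refine IsOpen.mem_nhds ((L.piece s).op.preimage (by fun_prop)) ?_
    show b⁻¹ * ((gl * gi⁻¹)⁻¹ * (gl * gi⁻¹)) * b ∈ (L.H s : Set G)
    rw [inv_mul_cancel, mul_one, inv_mul_cancel]
    exact (L.H s).one_mem
  obtain ⟨n, hn⟩ := hsel.den _ _ hFc ⟨_, hF0⟩ hco _ hF0 _ hO
  refine ⟨l, sel (w.2 l i).2 n * b, hl3, ⟨n, rfl⟩, hl4, fun r hr => ?_⟩
  have e3 : gl⁻¹ * r * gl⁻¹⁻¹ ∈ L.R (w.1 l).1 :=
    (L.piece _).nor _ ((L.H _).inv_mem hl2) r hr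
  have e4 : ∀ a c : ℕ, a ≤ c → L.R c ≤ L.R a := fun a c hac =>
    antitone_nat_of_succ_le L.antR hac
  have e5 := hm0 _ (e4 m0 _ hl1 e3)
  have e6 := (L.piece s).nor _ ((L.H s).inv_mem hn) _ e5
  have e7 : (sel (w.2 l i).2 n * b)⁻¹ * r * (sel (w.2 l i).2 n * b) =
      (b⁻¹ * ((gl * gi⁻¹)⁻¹ * sel (w.2 l i).2 n) * b)⁻¹ * (b⁻¹ * gi * (gl⁻¹ * r * gl⁻¹⁻¹) *
        (b⁻¹ * gi)⁻¹) * (b⁻¹ * ((gl * gi⁻¹)⁻¹ * sel (w.2 l i).2 n) * b)⁻¹⁻¹ := by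
    group
  rw [e7]
  exact e6

end Pool.Agent.H55.LPQ
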