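import Pool.Agent.H94.LQ.BSQ

/-!
# lpq_modules UMX: a Borel map which gives the structure of a code of each point
-/

set_option autoImplicit false

open Set Filter Topology

namespace Pool.Agent.H55.LPQ

open Pool.Agent.H93.CP Pool.Agent.H7.LP Pool.Agent.H7.LQ Pool.Agent.H94.LQ

theorem umx_bool {Ω : Type} [MeasurableSpace Ω] {P : Ω → Prop} (hP : MeasurableSet {w | P w})
    (b : Ω → Bool) (hb : ∀ w, b w = true ↔ P w) : Measurable b := by
  refine measurable_to_bool ?_
  have : b ⁻¹' {true} = {w | P w} := by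
    ext w
    exact hb w
  rw [this]
  exact hP

open Classical in
theorem pf_UMX (h1 : T_CDM) (h2 : T_LBM) (h3 : T_BLE) (h4 : T_BQQ) : T_UMX := by
  intro G X _ _ _ _ _ _ _ _ B L M _ Y S
  obtain ⟨E, hE, hcd⟩ := h1 G X B L M Y S
  have mk : ∀ i, Measurable fun x : X => (E x i).1 := fun i => (hE i).fst
  have mm : ∀ i, Measurable fun x : X => (E x i).2.1 := fun i => (hE i).snd.fst
  have mg : ∀ i, Measurable fun x : X => (E x i).2.2 := fun i => (hE i).snd.snd
  have hlb : ∀ (i n q : ℕ), MeasurableSet {x : X |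
      (lb L Y (E x i).1 x (E x i).2.2 n ∩ B.U q).Nonempty} := by
    intro i n q
    refine meas_subst (fun x : X => (E x i).1) (mk i)
      (fun k x => (lb L Y k x (E x i).2.2 n ∩ B.U q).Nonempty) fun k => ?_
    exact (measurable_id.prodMk (mg i)) (h2 G X L M Y k n (B.U q) (B.opn q))
  have hle : ∀ (i j : ℕ), MeasurableSet {x : X | Le B L Y x (E x i) (E x j)} := by
    intro i j
    refine meas_subst (fun x : X => (((E x i).1, (E x i).2.1), ((E x j).1, (E x j).2.1)))
      (((mk i).prodMk (mm i)).prodMk ((mk j).prodMk (mm j)))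
      (fun c x => Le B L Y x (c.1.1, c.1.2, (E x i).2.2) (c.2.1, c.2.2, (E x j).2.2))
      fun c => ?_
    exact (measurable_id.prodMk ((mg i).prodMk (mg j)))
      (h3 G X B L M Y c.1.1 c.1.2 c.2.1 c.2.2)
  have hqq : ∀ (i j p : ℕ), MeasurableSet {x : X |
      ∃ u ∈ KX B L Y (E x j).1 (E x j).2.1 x (E x j).2.2,
        (E x i).2.2 * ((E x j).2.2)⁻¹ * u ∈ B.U p} := by
    intro i j p
    refine meas_subst (fun x : X => ((E x j).1, (E x j).2.1)) ((mk j).prodMk (mm j))
      (fun c x => ∃ u ∈ KX B L Y c.1 c.2 x (E x j).2.2,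
        (E x i).2.2 * ((E x j).2.2)⁻¹ * u ∈ B.U p) fun c => ?_
    exact (measurable_id.prodMk ((mg i).prodMk (mg j)))
      (h4 G X B L M Y c.1 c.2 (B.U p) (B.opn p))
  refine ⟨fun x => (fun i => ((E x i).1, (E x i).2.1, fun np =>
      decide (lb L Y (E x i).1 x (E x i).2.2 np.1 ∩ B.U np.2).Nonempty),
    fun i j => (decide (Le B L Y x (E x i) (E x j)), fun p =>
      decide (Le B L Y x (E x i) (E x j) ∧
        ∃ u ∈ KX B L Y (E x j).1 (E x j).2.1 x (E x j).2.2,
          (E x i).2.2 * ((E x j).2.2)⁻¹ * u ∈ B.U p))), ?_, ?_⟩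
  · refine Measurable.prodMk (measurable_pi_iff.2 fun i => ?_)
      (measurable_pi_iff.2 fun i => measurable_pi_iff.2 fun j => ?_)
    · refine (mk i).prodMk ((mm i).prodMk (measurable_pi_iff.2 fun np => ?_))
      exact umx_bool (hlb i np.1 np.2) _ fun w => by simp
    · refine Measurable.prodMk (umx_bool (hle i j) _ fun w => by simp)
        (measurable_pi_iff.2 fun p => ?_)
      exact umx_bool ((hle i j).inter (hqq i j p)) _ fun w => by simp; rfl
  · intro x
    refine ⟨E x, hcd x, ⟨fun i => rfl, fun i => rfl, fun i n p => ?_, fun i j => ?_,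
      fun i j p => ?_⟩⟩
    · simp
    · simp
    · simp

end Pool.Agent.H55.LPQ
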